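import Mathlib
import Pool.Agent.TH344.DT.Stm
import Pool.Agent.TH344.GT.Tail

/-!
# Project DS: the tails for the curves with full rational 2-torsion ordered by the discriminant

All elliptic curves over `ℚ` with full rational 2-torsion, ordered by the minimal discriminant. For
every `k` the `k`-th moment of the orders of the 2-Selmer groups is bounded outside of one set of
density zero.
-/

set_option autoImplicit false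

namespace Pool.Agent.TH344.DS

open Finset Pool.Agent.W262.RK Pool.Agent.W307.RT Pool.Agent.W307.RS Pool.Agent.W307.SE
  Pool.Agent.W307.FK Pool.Agent.TH344.DT Pool.Agent.TH344.GT

open Classical in
/-- the curves with full rational 2-torsion and minimal discriminant at most `Z`, as a finite set -/
noncomputable def Dv (Z : ℕ) : Finset (ℤ × ℤ) :=
  if h : (DvS 2 Z).Finite then h.toFinset else ∅

/-- DS-REG: the weighted moments over the regions `|a b (a - b)| ≤ W ^ 3`. -/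
def S_REGW : Prop := ∀ (k : ℕ) (T : Finset (Fin 3 → ℝ)), (∀ t ∈ T, ∀ j, 0 < t j) →
  AVGW k T (fun a b => (Sel a b).ncard) →
  ∃ C : ℝ, 0 ≤ C ∧ ∀ D : ℤ, D ≠ 0 → ∀ W : ℕ, 1 ≤ W → ∀ S : Finset (ℤ × ℤ),
    (∀ t ∈ S, t.1 ≠ 0 ∧ t.2 ≠ 0 ∧ t.1 ≠ t.2 ∧ (t.1 * t.2 * (t.1 - t.2)).natAbs ≤ W ^ 3) →
      ∑ t ∈ S, SW k T (fun a b => (Sel a b).ncard) D t ≤
        C * (2 * 8 ^ k) ^ D.natAbs.primeFactors.card * (W : ℝ) ^ 2

/-- DS-CUS: the number of the points in the cusps of the regions. -/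
def S_CUSP : Prop := ∃ C : ℝ, 0 ≤ C ∧ ∀ W A : ℕ, 1 ≤ W → 1 ≤ A → ∀ S : Finset (ℤ × ℤ),
  (∀ t ∈ S, t.1 ≠ 0 ∧ t.2 ≠ 0 ∧ t.1 ≠ t.2 ∧ (t.1 * t.2 * (t.1 - t.2)).natAbs ≤ W ^ 3 ∧
    A * W < max t.1.natAbs t.2.natAbs) → (S.card : ℝ) ≤ C * (W : ℝ) ^ 2 / A

/-- DS-BAD: the exceptional points are rare. -/
def S_RBAD : Prop := ∀ T : Finset (Fin 3 → ℝ), (∀ t ∈ T, ∀ j, 0 < t j) → (∀ t ∈ T, 1 < ∏ j, t j) →
  ∀ ε : ℝ, 0 < ε → ∃ W0 : ℕ, ∀ W, W0 ≤ W → ∀ S : Finset (ℕ × ℤ × ℤ),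
    (∀ t ∈ S, 1 ≤ t.1 ∧ IsCoprime t.2.1 t.2.2 ∧ t.2.1 ≠ 0 ∧ t.2.2 ≠ 0 ∧ t.2.1 ≠ t.2.2 ∧
      t.1 ^ 3 * (t.2.1 * t.2.2 * (t.2.1 - t.2.2)).natAbs ≤ W ^ 3 ∧ rho T (omz t.2) < 1) →
    (S.card : ℝ) ≤ ε * (W : ℝ) ^ 2

/-- DS-EXC: one exceptional set for all the moments. -/
def S_EXCD : Prop := (∀ Z, (DvS 2 Z).Finite) ∧ (∀ Z, ∀ c ∈ DvS 2 Z, (SelR c.1 c.2).Finite) ∧
  EXC Dv (fun c => (SelR c.1 c.2).ncard)

end Pool.Agent.TH344.DS
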