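import Mathlib
import Pool.Agent.TH344.DS.Stm
import Pool.Agent.TH344.DT.Bad

/-! Project DS: the exceptional points of the regions are rare. -/

set_option autoImplicit false

namespace Pool.Agent.TH344.DS

open Finset Pool.Agent.W262.RK Pool.Agent.W307.RT Pool.Agent.W307.RS Pool.Agent.W307.SE
  Pool.Agent.W307.FK Pool.Agent.TH344.DT Pool.Agent.TH344.GT

namespace Bd

lemma omg_eq {t : ℤ × ℤ} (h : IsCoprime t.1 t.2) : omg t = omz t := by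
  unfold omg
  rw [Int.isCoprime_iff_gcd_eq_one.mp h]
  simp

lemma card_box (N : ℕ) : ((Box N).card : ℝ) = (2 * (N : ℝ) + 1) ^ 2 := by
  unfold Box
  rw [card_product, card_Icc1]
  push_cast
  ring

/-- the number of all points of the regions -/
lemma region_all (h : S_CUSP) : ∃ C : ℝ, 0 ≤ C ∧ ∀ W : ℕ, 1 ≤ W → ∀ S : Finset (ℤ × ℤ),
    (∀ t ∈ S, t.1 ≠ 0 ∧ t.2 ≠ 0 ∧ t.1 ≠ t.2 ∧ (t.1 * t.2 * (t.1 - t.2)).natAbs ≤ W ^ 3) →
    (S.card : ℝ) ≤ C * (W : ℝ) ^ 2 := by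
  classical
  obtain ⟨C, hC, h⟩ := h
  refine ⟨9 + C, by positivity, fun W hW S hS => ?_⟩
  have h1 := h W 1 hW le_rfl (S.filter (fun t => 1 * W < max t.1.natAbs t.2.natAbs))
    (fun t ht => by
      rw [mem_filter] at ht
      obtain ⟨h1, h2, h3, h4⟩ := hS t ht.1
      exact ⟨h1, h2, h3, h4, ht.2⟩)
  have h2 : ((S.filter (fun t => ¬ 1 * W < max t.1.natAbs t.2.natAbs)).card : ℝ) ≤
      (2 * (W : ℝ) + 1) ^ 2 := by
    rw [← card_box]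
    refine Nat.cast_le.2 (card_le_card fun t ht => ?_)
    rw [mem_filter] at ht
    rw [mem_Box1]
    omega
  have h3 := Finset.card_filter_add_card_filter_not (s := S)
    (fun t => 1 * W < max t.1.natAbs t.2.natAbs)
  have h4 : (S.card : ℝ) = ((S.filter (fun t => 1 * W < max t.1.natAbs t.2.natAbs)).card : ℝ) +
      ((S.filter (fun t => ¬ 1 * W < max t.1.natAbs t.2.natAbs)).card : ℝ) := by
    exact_mod_cast h3.symm
  have hW1 : (1 : ℝ) ≤ W := by exact_mod_cast hW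
  have h5 : (2 * (W : ℝ) + 1) ^ 2 ≤ 9 * (W : ℝ) ^ 2 := by nlinarith
  rw [Nat.cast_one, div_one] at h1
  rw [h4]
  linarith

/-- the number of the bad points of the regions -/
lemma region_bad (h : S_CUSP) (T : Finset (Fin 3 → ℝ)) (hT1 : ∀ t ∈ T, ∀ j, 0 < t j)
    (hT2 : ∀ t ∈ T, 1 < ∏ j, t j) (ε : ℝ) (hε : 0 < ε) : ∃ W1 : ℕ, 1 ≤ W1 ∧ ∀ W : ℕ, W1 ≤ W →
    ∀ S : Finset (ℤ × ℤ), (∀ t ∈ S, IsCoprime t.1 t.2 ∧ t.1 ≠ 0 ∧ t.2 ≠ 0 ∧ t.1 ≠ t.2 ∧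
      (t.1 * t.2 * (t.1 - t.2)).natAbs ≤ W ^ 3 ∧ rho T (omz t) < 1) →
    (S.card : ℝ) ≤ ε * (W : ℝ) ^ 2 := by
  classical
  obtain ⟨C, hC, h⟩ := h
  obtain ⟨A, hA⟩ := exists_nat_gt (2 * C / ε + 1)
  have hA0 : (0 : ℝ) < A := lt_trans (by positivity) hA
  have hA1 : 1 ≤ A := by exact_mod_cast hA0
  obtain ⟨N0, hN0⟩ := bad T hT1 hT2 (ε / (2 * A ^ 2)) (by positivity)
  refine ⟨N0 + 1, by omega, fun W hW S hS => ?_⟩
  have h1 := h W A (by omega) hA1 (S.filter (fun t => A * W < max t.1.natAbs t.2.natAbs))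
    (fun t ht => by
      rw [mem_filter] at ht
      obtain ⟨_, h1, h2, h3, h4, _⟩ := hS t ht.1
      exact ⟨h1, h2, h3, h4, ht.2⟩)
  have hAW : N0 ≤ A * W := by
    calc N0 ≤ 1 * W := by omega
      _ ≤ A * W := Nat.mul_le_mul_right _ hA1
  have h2 : ((S.filter (fun t => ¬ A * W < max t.1.natAbs t.2.natAbs)).card : ℝ) ≤
      ε / (2 * A ^ 2) * ((A * W : ℕ) : ℝ) ^ 2 := by
    refine le_trans (Nat.cast_le.2 (card_le_card fun t ht => ?_)) (hN0 (A * W) hAW)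
    rw [mem_filter] at ht
    obtain ⟨hc, h1, h2, h3, h4, h5⟩ := hS t ht.1
    rw [mem_filter, mem_Box1, omg_eq hc]
    exact ⟨by omega, h1, h2, h3, h5⟩
  have h3 := Finset.card_filter_add_card_filter_not (s := S)
    (fun t => A * W < max t.1.natAbs t.2.natAbs)
  have h4 : (S.card : ℝ) = ((S.filter (fun t => A * W < max t.1.natAbs t.2.natAbs)).card : ℝ) +
      ((S.filter (fun t => ¬ A * W < max t.1.natAbs t.2.natAbs)).card : ℝ) := by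
    exact_mod_cast h3.symm
  have h5 : ε / (2 * A ^ 2) * ((A * W : ℕ) : ℝ) ^ 2 = ε / 2 * (W : ℝ) ^ 2 := by
    push_cast
    field_simp
  have h6 : C * (W : ℝ) ^ 2 / A ≤ ε / 2 * (W : ℝ) ^ 2 := by
    rw [div_le_iff₀ hA0]
    have h7 : C ≤ ε / 2 * A := by
      have h8 : 2 * C / ε < A := by linarith
      rw [div_lt_iff₀ hε] at h8
      linarith
    calc C * (W : ℝ) ^ 2 ≤ (ε / 2 * A) * (W : ℝ) ^ 2 := by gcongr
      _ = _ := by ring
  rw [h4]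
  linarith

lemma sum_inv_sq (W : ℕ) : ∑ g ∈ Icc 1 W, ((g : ℝ) ^ 2)⁻¹ ≤ 2 := by
  have h := sum_Ioo_inv_sq_le (α := ℝ) 0 (W + 1)
  have h1 : Ioo 0 (W + 1) = Icc 1 W := by
    ext x
    rw [mem_Ioo, mem_Icc]
    omega
  rw [h1] at h
  simpa using h

end Bd

open Bd in
theorem rbad_of (h : S_CUSP) : S_RBAD := by
  classical
  intro T hT1 hT2 ε hε
  obtain ⟨C, hC, hall⟩ := region_all h
  obtain ⟨W1, hW1, hbad⟩ := region_bad h T hT1 hT2 (ε / 16) (by positivity)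
  obtain ⟨W0, hW0⟩ := exists_nat_gt (2 * (C * (W1 : ℝ) ^ 2) / ε)
  refine ⟨W0, fun W hW S hS => ?_⟩
  have hWr : C * (W1 : ℝ) ^ 2 ≤ ε / 2 * W := by
    have h1 : 2 * (C * (W1 : ℝ) ^ 2) / ε < W := lt_of_lt_of_le hW0 (by exact_mod_cast hW)
    rw [div_lt_iff₀ hε] at h1
    linarith
  have hg1 : ∀ t ∈ S, t.1 ∈ Icc 1 W := by
    intro t ht
    obtain ⟨h1, _, h2, h3, h4, h5, _⟩ := hS t ht
    rw [mem_Icc]
    refine ⟨h1, ?_⟩
    have h6 : 1 ≤ (t.2.1 * t.2.2 * (t.2.1 - t.2.2)).natAbs :=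
      Int.natAbs_pos.2 (mul_ne_zero (mul_ne_zero h2 h3) (sub_ne_zero.2 h4))
    have h7 : t.1 ^ 3 ≤ W ^ 3 := by
      calc t.1 ^ 3 = t.1 ^ 3 * 1 := (mul_one _).symm
        _ ≤ t.1 ^ 3 * (t.2.1 * t.2.2 * (t.2.1 - t.2.2)).natAbs := Nat.mul_le_mul_left _ h6
        _ ≤ W ^ 3 := h5
    exact (Nat.pow_le_pow_iff_left (by norm_num)).1 h7
  have hfib : ∀ g ∈ Icc 1 W, ((S.filter (fun t => t.1 = g)).card : ℝ) ≤
      ε / 4 * (W : ℝ) ^ 2 * ((g : ℝ) ^ 2)⁻¹ + C * (W1 : ℝ) ^ 2 := by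
    intro g hg
    rw [mem_Icc] at hg
    have hg0 : 0 < g := by omega
    have hgr : (0 : ℝ) < g := by exact_mod_cast hg0
    obtain ⟨S', hS'⟩ : ∃ S', S' = (S.filter (fun t => t.1 = g)).image Prod.snd := ⟨_, rfl⟩
    have hcard : (S.filter (fun t => t.1 = g)).card = S'.card := by
      rw [hS', card_image_of_injOn]
      intro x hx y hy hxy
      have hx' := (mem_filter.1 (mem_coe.1 hx)).2
      have hy' := (mem_filter.1 (mem_coe.1 hy)).2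
      exact Prod.ext (hx'.trans hy'.symm) hxy
    obtain ⟨V, hV⟩ : ∃ V, V = W / g + 1 := ⟨_, rfl⟩
    have hV1 : 1 ≤ V := by
      rw [hV]
      exact Nat.le_add_left 1 _
    have hWV : W ≤ g * V := by
      rw [hV]
      exact (Nat.lt_mul_div_succ W hg0).le
    have hS'1 : ∀ t ∈ S', IsCoprime t.1 t.2 ∧ t.1 ≠ 0 ∧ t.2 ≠ 0 ∧ t.1 ≠ t.2 ∧
        (t.1 * t.2 * (t.1 - t.2)).natAbs ≤ V ^ 3 ∧ rho T (omz t) < 1 := by
      intro t ht
      rw [hS', mem_image] at ht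
      obtain ⟨s, hs, rfl⟩ := ht
      rw [mem_filter] at hs
      obtain ⟨h1, h2, h3, h4, h5, h6, h7⟩ := hS s hs.1
      refine ⟨h2, h3, h4, h5, ?_, h7⟩
      rw [hs.2] at h6
      have h8 : g ^ 3 * (s.2.1 * s.2.2 * (s.2.1 - s.2.2)).natAbs ≤ g ^ 3 * V ^ 3 := by
        refine h6.trans ?_
        rw [← mul_pow]
        exact Nat.pow_le_pow_left hWV 3
      exact Nat.le_of_mul_le_mul_left h8 (by positivity)
    have hVr : (V : ℝ) ≤ 2 * (W : ℝ) / g := by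
      rw [le_div_iff₀ hgr]
      have h1 : V * g ≤ 2 * W := by
        rw [hV, add_mul, one_mul, two_mul]
        exact Nat.add_le_add (Nat.div_mul_le_self W g) hg.2
      exact_mod_cast h1
    rw [hcard]
    have hpos1 : 0 ≤ ε / 4 * (W : ℝ) ^ 2 * ((g : ℝ) ^ 2)⁻¹ := by positivity
    have hpos2 : 0 ≤ C * (W1 : ℝ) ^ 2 := by positivity
    rcases le_or_gt W1 V with hc | hc
    · have h1 := hbad V hc S' hS'1
      have h2 : ε / 16 * (V : ℝ) ^ 2 ≤ ε / 4 * (W : ℝ) ^ 2 * ((g : ℝ) ^ 2)⁻¹ := by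
        calc ε / 16 * (V : ℝ) ^ 2 ≤ ε / 16 * (2 * (W : ℝ) / g) ^ 2 := by gcongr
          _ = _ := by
            field_simp
            ring
      linarith
    · have h1 := hall V hV1 S' (fun t ht => by
        obtain ⟨_, h2, h3, h4, h5, _⟩ := hS'1 t ht
        exact ⟨h2, h3, h4, h5⟩)
      have h2 : C * (V : ℝ) ^ 2 ≤ C * (W1 : ℝ) ^ 2 := by
        have : (V : ℝ) ≤ W1 := by exact_mod_cast hc.le
        gcongr
      linarith
  have hsum : (S.card : ℝ) = ∑ g ∈ Icc 1 W, ((S.filter (fun t => t.1 = g)).card : ℝ) := by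
    rw [card_eq_sum_card_fiberwise (f := fun t : ℕ × ℤ × ℤ => t.1) (t := Icc 1 W)
      (fun t ht => mem_coe.2 (hg1 t (mem_coe.1 ht)))]
    push_cast
    rfl
  rw [hsum]
  refine (sum_le_sum hfib).trans ?_
  rw [sum_add_distrib, ← mul_sum, sum_const, Nat.card_Icc, nsmul_eq_mul]
  have h1 := mul_le_mul_of_nonneg_left (sum_inv_sq W) (by positivity : 0 ≤ ε / 4 * (W : ℝ) ^ 2)
  have h2 : ((W + 1 - 1 : ℕ) : ℝ) * (C * (W1 : ℝ) ^ 2) ≤ ε / 2 * (W : ℝ) ^ 2 := by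
    rw [Nat.add_sub_cancel]
    calc (W : ℝ) * (C * (W1 : ℝ) ^ 2) ≤ W * (ε / 2 * W) := by gcongr
      _ = _ := by ring
  linarith

end Pool.Agent.TH344.DS
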