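import Mathlib
import Pool.Agent.TH344.DS.Stm
import Pool.Agent.TH344.DT.Main
import Pool.Agent.W307.FK.Main

/-! Project DS: one exceptional set for the curves ordered by the discriminant. -/

set_option autoImplicit false

namespace Pool.Agent.TH344.DS

open Finset Pool.Agent.W262.RK Pool.Agent.W307.RT Pool.Agent.W307.RS Pool.Agent.W307.SE
  Pool.Agent.W307.FK Pool.Agent.TH344.DT Pool.Agent.TH344.GT

lemma coe_Dv (hfin : ∀ Z, (DvS 2 Z).Finite) (Z : ℕ) : (Dv Z : Set (ℤ × ℤ)) = DvS 2 Z := by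
  unfold Dv
  rw [dif_pos (hfin Z)]
  exact (hfin Z).coe_toFinset

lemma mem_Dv (hfin : ∀ Z, (DvS 2 Z).Finite) {Z : ℕ} {c : ℤ × ℤ} : c ∈ Dv Z ↔ c ∈ DvS 2 Z := by
  rw [← mem_coe, coe_Dv hfin]

lemma Dv_mono (hfin : ∀ Z, (DvS 2 Z).Finite) : Monotone Dv := by
  intro Z Z' h c hc
  rw [mem_Dv hfin] at hc ⊢
  obtain ⟨h1, h2, h3, h4⟩ := hc
  exact ⟨h1, h2, h3, h4.trans h⟩

/-- the number of the curves is at least a constant times `W ^ 2` -/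
lemma low_dv (hM : MDL) (hL : LOW 2 6) (hfin : ∀ Z, (DvS 2 Z).Finite) :
    ∃ C4 : ℝ, 0 < C4 ∧ ∀ Z : ℕ, (Dv Z).Nonempty →
      ∃ W : ℕ, 1 ≤ W ∧ 6 ^ 12 * Z ≤ W ^ 6 ∧ (W : ℝ) ^ 2 ≤ C4 * (Dv Z).card := by
  classical
  obtain ⟨c, C1, T0, hc, hlow⟩ := hL
  obtain ⟨C0, hC0d⟩ : ∃ C0 : ℕ, C0 = 6 ^ 12 := ⟨_, rfl⟩
  have hC0 : 1 ≤ C0 := by rw [hC0d]; norm_num
  rw [← hC0d]
  set D := C0 * (32 * C1) + 1 with hD
  have hD1 : 1 ≤ D := by omega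
  -- the choice of `W`
  have hWex : ∀ Z : ℕ, ∃ T : ℕ, T ^ 6 ≤ C0 * Z ∧ C0 * Z ≤ (T + 1) ^ 6 := by
    intro Z
    refine ⟨Nat.findGreatest (fun t => t ^ 6 ≤ C0 * Z) (C0 * Z), ?_, ?_⟩
    · exact Nat.findGreatest_spec (P := fun t => t ^ 6 ≤ C0 * Z) (Nat.zero_le _)
        (by rw [zero_pow (by omega)]; exact Nat.zero_le _)
    · by_contra hcon
      push Not at hcon
      have h1 : Nat.findGreatest (fun t => t ^ 6 ≤ C0 * Z) (C0 * Z) + 1 ≤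
          Nat.findGreatest (fun t => t ^ 6 ≤ C0 * Z) (C0 * Z) := by
        apply Nat.le_findGreatest
        · exact (Nat.le_self_pow (by omega) _).trans hcon.le
        · exact hcon.le
      omega
  refine ⟨((D * (T0 + 1) + 1 : ℕ) : ℝ) ^ 2 + (4 * (D : ℝ)) ^ 2 / c, by positivity,
    fun Z hne => ?_⟩
  set K := (Dv Z).card with hK
  have hK1 : (1 : ℝ) ≤ K := by exact_mod_cast hne.card_pos
  have hq0 : 0 ≤ (4 * (D : ℝ)) ^ 2 / c := by positivity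
  have hr0 : 0 ≤ ((D * (T0 + 1) + 1 : ℕ) : ℝ) ^ 2 := by positivity
  obtain ⟨T, hTk, hTW⟩ := hWex Z
  rcases Nat.lt_or_ge T (D * (T0 + 1)) with hlt | hge
  · refine ⟨D * (T0 + 1) + 1, by omega, hTW.trans (Nat.pow_le_pow_left (by omega) 6), ?_⟩
    calc ((D * (T0 + 1) + 1 : ℕ) : ℝ) ^ 2
        ≤ ((D * (T0 + 1) + 1 : ℕ) : ℝ) ^ 2 * K := le_mul_of_one_le_right hr0 hK1
      _ ≤ _ := by
        apply mul_le_mul_of_nonneg_right _ (by linarith)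
        linarith
  · refine ⟨T + 1, by omega, hTW, ?_⟩
    set T' := T / D with hT'
    have hT'0 : T0 + 1 ≤ T' := by
      rw [hT', Nat.le_div_iff_mul_le hD1, mul_comm]
      exact hge
    have h2 : T' * D ≤ T := Nat.div_mul_le_self T D
    have h3 : 32 * (C1 * T' ^ 6) ≤ Z := by
      have a1 : (T' * D) ^ 6 ≤ C0 * Z := (Nat.pow_le_pow_left h2 6).trans hTk
      rw [mul_pow] at a1
      have a2 : D ≤ D ^ 6 := Nat.le_self_pow (by omega) D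
      have a3 : T' ^ 6 * (C0 * (32 * C1)) ≤ C0 * Z :=
        (Nat.mul_le_mul_left _ (by omega : C0 * (32 * C1) ≤ D ^ 6)).trans a1
      have a4 : C0 * (32 * (C1 * T' ^ 6)) ≤ C0 * Z := by
        calc C0 * (32 * (C1 * T' ^ 6)) = T' ^ 6 * (C0 * (32 * C1)) := by ring
          _ ≤ _ := a3
      exact Nat.le_of_mul_le_mul_left a4 (by omega)
    have h4 := hlow T' (C1 * T' ^ 6) (by omega) le_rfl
    have h4' : (Cv 2 (C1 * T' ^ 6)).card ≤ K := by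
      apply card_le_card
      rw [← coe_subset, coe_Dv hfin]
      exact Cv_sub hM 2 _ Z h3
    have h4'' : c * (T' : ℝ) ^ 2 ≤ K := h4.trans (by exact_mod_cast h4')
    have h5 : T + 1 ≤ 4 * D * T' := by
      have a1 : T < D * (T' + 1) := by
        rw [mul_comm]
        exact Nat.lt_mul_of_div_lt (by rw [← hT']; omega) hD1
      have a2 : D * (T' + 1) ≤ 2 * D * T' := by nlinarith
      have a3 : 2 * D * T' ≤ 4 * D * T' := by nlinarith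
      omega
    have h6 : ((T + 1 : ℕ) : ℝ) ≤ 4 * D * T' := by exact_mod_cast h5
    calc ((T + 1 : ℕ) : ℝ) ^ 2 ≤ (4 * D * T') ^ 2 :=
          pow_le_pow_left₀ (Nat.cast_nonneg _) h6 2
      _ = (4 * (D : ℝ)) ^ 2 / c * (c * (T' : ℝ) ^ 2) := by
        field_simp
      _ ≤ (4 * (D : ℝ)) ^ 2 / c * K := mul_le_mul_of_nonneg_left h4'' hq0
      _ ≤ _ := by
        apply mul_le_mul_of_nonneg_right _ (by linarith)
        linarith

/-- the Selmer groups -/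
lemma sel_le {A B e1 e2 e3 M N : ℤ} {g : ℕ} (hD : 4 * A ^ 3 + 27 * B ^ 2 ≠ 0)
    (hr : ∀ x : ℤ, x ^ 3 + A * x + B = (x - e1) * (x - e2) * (x - e3)) (hg : 1 ≤ g)
    (hM : M ≠ 0) (hN : N ≠ 0) (hMN : M ≠ N) (h21 : e2 - e1 = g * M)
    (h31 : e3 - e1 = g * N) :
    (SelR A B).ncard ≤ (Sel ((g : ℤ) * M) ((g : ℤ) * N)).ncard := by
  have hg0 : (g : ℤ) ≠ 0 := by
    have : g ≠ 0 := by omega
    exact_mod_cast this
  have hfin : (Sel (g * M) (g * N)).Finite := Pool.Agent.W701.FK.sel_fin' (mul_ne_zero hg0 hM)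
    (mul_ne_zero hg0 hN) (fun h => hMN (mul_left_cancel₀ hg0 h))
  obtain ⟨f1, f2⟩ := Pool.Agent.W597.SE.selc A B e1 e2 e3 (g * M) (g * N) 1 hD hr one_ne_zero
    (by rw [h21]; push_cast; ring) (by rw [h31]; push_cast; ring) hfin
  exact f2

/-- the parametrisation -/
def Par (F : ℤ × ℤ → ℕ × ℤ × ℤ) : Prop :=
  Set.InjOn F {c | 4 * c.1 ^ 3 + 27 * c.2 ^ 2 ≠ 0 ∧ HasT 2 (Sh c.1 c.2)} ∧
  ∀ c : ℤ × ℤ, 4 * c.1 ^ 3 + 27 * c.2 ^ 2 ≠ 0 → HasT 2 (Sh c.1 c.2) →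
    1 ≤ (F c).1 ∧ IsCoprime (F c).2.1 (F c).2.2 ∧ (F c).2.1 ≠ 0 ∧ (F c).2.2 ≠ 0 ∧
    (F c).2.1 ≠ (F c).2.2 ∧ ∃ e1 e2 e3 : ℤ,
      (∀ x : ℤ, x ^ 3 + c.1 * x + c.2 = (x - e1) * (x - e2) * (x - e3)) ∧
      e2 - e1 = (F c).1 * (F c).2.1 ∧ e3 - e1 = (F c).1 * (F c).2.2

/-- the properties of the parametrisation -/
lemma par_key {F : ℤ × ℤ → ℕ × ℤ × ℤ} (hF : Par F) (hMDL : MDL) {Z W : ℕ}
    (hZW : 6 ^ 12 * Z ≤ W ^ 6) {c : ℤ × ℤ} (hc : c ∈ DvS 2 Z) :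
    1 ≤ (F c).1 ∧ IsCoprime (F c).2.1 (F c).2.2 ∧ (F c).2.1 ≠ 0 ∧ (F c).2.2 ≠ 0 ∧
      (F c).2.1 ≠ (F c).2.2 ∧
      (F c).1 ^ 3 * ((F c).2.1 * (F c).2.2 * ((F c).2.1 - (F c).2.2)).natAbs ≤ W ^ 3 ∧
      (SelR c.1 c.2).ncard ≤
        (Sel (((F c).1 : ℤ) * (F c).2.1) (((F c).1 : ℤ) * (F c).2.2)).ncard := by
  obtain ⟨d1, d2, d3, d4⟩ := hc
  obtain ⟨g1, g2, g3, g4, g5, e1, e2, e3, g6, g7, g8⟩ := hF.2 c d1 d3
  obtain ⟨a1, a2, a3⟩ := Pool.Agent.W701.FK.curve_data d1 g6 g1 g3 g4 g5 g2 g7 g8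
  refine ⟨g1, g2, g3, g4, g5, ?_, sel_le d1 g6 g1 g3 g4 g5 g7 g8⟩
  have b1 := (hMDL c.1 c.2 d1 d2).1
  rw [← a3] at b1
  have b2 : 6 ^ 12 * mD (Sh c.1 c.2) ≤ 6 ^ 12 * Z := Nat.mul_le_mul_left _ d4
  have k2 : ((F c).1 ^ 3 * ((F c).2.1 * (F c).2.2 *
      ((F c).2.1 - (F c).2.2)).natAbs) ^ 2 ≤ (W ^ 3) ^ 2 := by
    calc _ ≤ 6 ^ 12 * Z := by omega
      _ ≤ W ^ 6 := hZW
      _ = (W ^ 3) ^ 2 := by ring
  exact (Nat.pow_le_pow_iff_left (by norm_num)).1 k2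

lemma SW_nn {T : Finset (Fin 3 → ℝ)} (hT : ∀ t ∈ T, ∀ j, 0 < t j) (k : ℕ) (G : ℤ → ℤ → ℕ)
    (D : ℤ) (t : ℤ × ℤ) : 0 ≤ SW k T G D t := by
  unfold SW
  split_ifs
  · exact mul_nonneg (by positivity) (rho_nonneg hT _)
  · exact le_rfl

/-- the weighted moments -/
lemma sum_bd (hR : S_REGW) {k : ℕ} {T : Finset (Fin 3 → ℝ)} (hT : ∀ t ∈ T, ∀ j, 0 < t j)
    (hA : AVGW k T (fun a b => (Sel a b).ncard)) {F : ℤ × ℤ → ℕ × ℤ × ℤ} (hF : Par F)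
    (hMDL : MDL) (hsom : ∃ C : ℝ, 0 ≤ C ∧ ∀ n : ℕ,
      ∑ g ∈ Icc 1 n, (2 * 8 ^ k : ℝ) ^ g.primeFactors.card / (g : ℝ) ^ 2 ≤ C) :
    ∃ C : ℝ, 0 ≤ C ∧ ∀ Z W : ℕ, 1 ≤ W → 6 ^ 12 * Z ≤ W ^ 6 → ∀ S : Finset (ℤ × ℤ),
      (S : Set (ℤ × ℤ)) ⊆ DvS 2 Z →
      ∑ x ∈ S, ((SelR x.1 x.2).ncard : ℝ) ^ k * rho T (omz (F x).2) ≤ C * (W : ℝ) ^ 2 := by
  classical
  obtain ⟨C1, hC1, hb⟩ := hR k T hT hA
  obtain ⟨C2, hC2, hsom⟩ := hsom
  refine ⟨4 * C1 * C2, by positivity, ?_⟩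
  intro Z W hW hZW S hS
  have hS' : (S : Set (ℤ × ℤ)) ⊆
      {c | 4 * c.1 ^ 3 + 27 * c.2 ^ 2 ≠ 0 ∧ HasT 2 (Sh c.1 c.2)} := fun c hc =>
    ⟨(hS hc).1, (hS hc).2.2.1⟩
  -- size
  have hsize : ∀ c ∈ S, (F c).1 ^ 3 *
      ((F c).2.1 * (F c).2.2 * ((F c).2.1 - (F c).2.2)).natAbs ≤ W ^ 3 :=
    fun c hc => (par_key hF hMDL hZW (hS hc)).2.2.2.2.2.1
  have hgW : ∀ c ∈ S, (F c).1 ∈ Icc 1 W := by
    intro c hc
    obtain ⟨k0, _, k3, k4, k5, _, _⟩ := par_key hF hMDL hZW (hS hc)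
    rw [mem_Icc]
    refine ⟨k0, ?_⟩
    have k6 : 1 ≤ ((F c).2.1 * (F c).2.2 * ((F c).2.1 - (F c).2.2)).natAbs := by
      rw [Nat.one_le_iff_ne_zero, Ne, Int.natAbs_eq_zero]
      exact mul_ne_zero (mul_ne_zero k3 k4) (sub_ne_zero.2 k5)
    have k7 : (F c).1 ^ 3 ≤ W ^ 3 := (Nat.le_mul_of_pos_right _ k6).trans (hsize c hc)
    exact (Nat.pow_le_pow_iff_left (by norm_num)).1 k7
  obtain ⟨Q, hQ⟩ : ∃ Q : ℕ → ℤ × ℤ → ℝ, Q = fun (g : ℕ) t =>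
    SW k T (fun a b => (Sel a b).ncard) (g : ℤ) t := ⟨_, rfl⟩
  have hQ' : ∀ g t, Q g t = SW k T (fun a b => (Sel a b).ncard) (g : ℤ) t := fun g t => by rw [hQ]
  have e1 : ∑ x ∈ S, ((SelR x.1 x.2).ncard : ℝ) ^ k * rho T (omz (F x).2) ≤
      ∑ x ∈ S, Q (F x).1 (F x).2 := by
    refine sum_le_sum fun x hx => ?_
    obtain ⟨k0, k1, k3, k4, k5, _, k7⟩ := par_key hF hMDL hZW (hS hx)
    rw [hQ']
    unfold SW
    rw [if_pos ⟨k1, k3, k4, k5⟩]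
    refine mul_le_mul_of_nonneg_right ?_ (rho_nonneg hT _)
    exact pow_le_pow_left₀ (Nat.cast_nonneg _) (by exact_mod_cast k7) k
  have e2 : ∑ x ∈ S, Q (F x).1 (F x).2 = ∑ t ∈ S.image F, Q t.1 t.2 := by
    rw [sum_image (hF.1.mono hS')]
  have e3 : ∑ g ∈ Icc 1 W, ∑ t ∈ (S.image F).filter (fun t => t.1 = g), Q t.1 t.2
      = ∑ t ∈ S.image F, Q t.1 t.2 := by
    apply sum_fiberwise_of_maps_to
    intro t ht
    obtain ⟨c, hc, rfl⟩ := mem_image.1 ht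
    exact hgW c hc
  have e4 : ∀ g ∈ Icc 1 W, ∑ t ∈ (S.image F).filter (fun t => t.1 = g), Q t.1 t.2 ≤
      (4 * C1 * (W : ℝ) ^ 2) * ((2 * 8 ^ k : ℝ) ^ g.primeFactors.card / (g : ℝ) ^ 2) := by
    intro g hg
    rw [mem_Icc] at hg
    have f1 : ∑ t ∈ (S.image F).filter (fun t => t.1 = g), Q t.1 t.2
        = ∑ t ∈ ((S.image F).filter (fun t => t.1 = g)).image Prod.snd, Q g t := by
      rw [sum_image]
      · apply sum_congr rfl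
        intro t ht
        rw [(mem_filter.1 ht).2]
      · intro t ht t' ht' htt
        have q1 := (mem_filter.1 ht).2
        have q2 := (mem_filter.1 ht').2
        exact Prod.ext (q1.trans q2.symm) htt
    rw [f1]
    have hgz : (g : ℤ) ≠ 0 := by
      have : g ≠ 0 := by omega
      exact_mod_cast this
    have f2 := hb g hgz (W / g + 1) (Nat.le_add_left 1 _)
      (((S.image F).filter (fun t => t.1 = g)).image Prod.snd) (by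
      intro t ht
      obtain ⟨t', ht', rfl⟩ := mem_image.1 ht
      obtain ⟨ht1, ht2⟩ := mem_filter.1 ht'
      obtain ⟨c, hc, rfl⟩ := mem_image.1 ht1
      obtain ⟨k0, _, k3, k4, k5, _, _⟩ := par_key hF hMDL hZW (hS hc)
      refine ⟨k3, k4, k5, ?_⟩
      have q1 := hsize c hc
      rw [ht2] at q1
      have q2 : W < g * (W / g + 1) := Nat.lt_mul_div_succ W (by omega)
      have q3 : W ^ 3 < (g * (W / g + 1)) ^ 3 := Nat.pow_lt_pow_left q2 (by norm_num)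
      rw [mul_pow] at q3
      exact (Nat.lt_of_mul_lt_mul_left (q1.trans_lt q3)).le)
    rw [Int.natAbs_natCast] at f2
    have f2' : ∑ t ∈ ((S.image F).filter (fun t => t.1 = g)).image Prod.snd, Q g t ≤
        C1 * (2 * 8 ^ k) ^ g.primeFactors.card * ((W / g + 1 : ℕ) : ℝ) ^ 2 := by
      rw [sum_congr rfl fun t _ => hQ' g t]
      exact f2
    refine f2'.trans ?_
    have hgr : (0 : ℝ) < g := by
      have : 0 < g := by omega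
      exact_mod_cast this
    have f3 : ((W / g + 1 : ℕ) : ℝ) ≤ 2 * W / g := by
      push_cast
      have r1 : ((W / g : ℕ) : ℝ) ≤ (W : ℝ) / g := Nat.cast_div_le
      have r2 : (1 : ℝ) ≤ (W : ℝ) / g := by
        rw [one_le_div hgr]
        exact_mod_cast hg.2
      have r3 : 2 * (W : ℝ) / g = (W : ℝ) / g + (W : ℝ) / g := by ring
      rw [r3]
      exact add_le_add r1 r2
    have f4 : ((W / g + 1 : ℕ) : ℝ) ^ 2 ≤ (2 * W / g) ^ 2 :=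
      pow_le_pow_left₀ (Nat.cast_nonneg _) f3 2
    calc C1 * (2 * 8 ^ k) ^ g.primeFactors.card * ((W / g + 1 : ℕ) : ℝ) ^ 2
        ≤ C1 * (2 * 8 ^ k) ^ g.primeFactors.card * (2 * W / g) ^ 2 :=
          mul_le_mul_of_nonneg_left f4 (by positivity)
      _ = _ := by
          field_simp
          ring
  calc ∑ x ∈ S, ((SelR x.1 x.2).ncard : ℝ) ^ k * rho T (omz (F x).2)
      ≤ ∑ t ∈ S.image F, Q t.1 t.2 := by
        rw [← e2]; exact e1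
    _ = ∑ g ∈ Icc 1 W, ∑ t ∈ (S.image F).filter (fun t => t.1 = g), Q t.1 t.2 := e3.symm
    _ ≤ ∑ g ∈ Icc 1 W, (4 * C1 * (W : ℝ) ^ 2) *
        ((2 * 8 ^ k : ℝ) ^ g.primeFactors.card / (g : ℝ) ^ 2) := sum_le_sum e4
    _ = (4 * C1 * (W : ℝ) ^ 2) * ∑ g ∈ Icc 1 W,
        ((2 * 8 ^ k : ℝ) ^ g.primeFactors.card / (g : ℝ) ^ 2) := by rw [mul_sum]
    _ ≤ (4 * C1 * (W : ℝ) ^ 2) * C2 := mul_le_mul_of_nonneg_left (hsom W) (by positivity)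
    _ = _ := by ring

/-- the exceptional set for one `k` -/
lemma exc_one' (h1 : S_REGW) (h2 : S_RBAD) (hfin : ∀ Z, (DvS 2 Z).Finite) {k : ℕ}
    {T : Finset (Fin 3 → ℝ)} (hT : ∀ t ∈ T, ∀ j, 0 < t j) (hT2 : ∀ t ∈ T, 1 < ∏ j, t j)
    (hA : AVGW k T (fun a b => (Sel a b).ncard)) {F : ℤ × ℤ → ℕ × ℤ × ℤ} (hF : Par F)
    (hMDL : MDL) (hL : LOW 2 6) (hsom : ∃ C : ℝ, 0 ≤ C ∧ ∀ n : ℕ,
      ∑ g ∈ Icc 1 n, (2 * 8 ^ k : ℝ) ^ g.primeFactors.card / (g : ℝ) ^ 2 ≤ C) :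
    (∀ ε : ℝ, 0 < ε → ∃ H0 : ℕ, ∀ H, H0 ≤ H →
      (((Dv H).filter (fun c => rho T (omz (F c).2) < 1)).card : ℝ) ≤ ε * (Dv H).card) ∧
    ∃ C : ℝ, ∀ H, ∑ c ∈ (Dv H).filter (fun c => ¬ rho T (omz (F c).2) < 1),
      ((SelR c.1 c.2).ncard : ℝ) ^ k ≤ C * (Dv H).card := by
  classical
  obtain ⟨C4, hC4, hlow⟩ := low_dv hMDL hL hfin
  refine ⟨fun ε hε => ?_, ?_⟩
  · obtain ⟨W0, hW0⟩ := h2 T hT hT2 (ε / C4) (by positivity)
    refine ⟨W0 ^ 6, fun H hH => ?_⟩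
    rcases (Dv H).eq_empty_or_nonempty with he | hne
    · rw [he]
      simp
    obtain ⟨W, hW1, hW2, hW3⟩ := hlow H hne
    have hWW : W0 ≤ W := by
      have h3 : W0 ^ 6 ≤ W ^ 6 := by
        calc W0 ^ 6 ≤ H := hH
          _ ≤ 6 ^ 12 * H := Nat.le_mul_of_pos_left _ (by norm_num)
          _ ≤ W ^ 6 := hW2
      exact (Nat.pow_le_pow_iff_left (by norm_num)).1 h3
    have h3 := hW0 W hWW (((Dv H).filter (fun c => rho T (omz (F c).2) < 1)).image F) (by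
      intro t ht
      obtain ⟨c, hc, rfl⟩ := mem_image.1 ht
      obtain ⟨hc1, hc2⟩ := mem_filter.1 hc
      obtain ⟨k0, k1, k3, k4, k5, k6, _⟩ := par_key hF hMDL hW2 ((mem_Dv hfin).1 hc1)
      exact ⟨k0, k1, k3, k4, k5, k6, hc2⟩)
    rw [card_image_of_injOn] at h3
    · calc _ ≤ ε / C4 * (W : ℝ) ^ 2 := h3
        _ ≤ ε / C4 * (C4 * (Dv H).card) := mul_le_mul_of_nonneg_left hW3 (by positivity)
        _ = _ := by field_simp
    · refine hF.1.mono ?_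
      intro c hc
      have hc1 := (mem_Dv hfin).1 (mem_filter.1 (mem_coe.1 hc)).1
      exact ⟨hc1.1, hc1.2.2.1⟩
  · obtain ⟨C, hC, hsum⟩ := sum_bd h1 hT hA hF hMDL hsom
    refine ⟨C * C4, fun H => ?_⟩
    rcases (Dv H).eq_empty_or_nonempty with he | hne
    · rw [he]
      simp
    obtain ⟨W, hW1, hW2, hW3⟩ := hlow H hne
    have h3 := hsum H W hW1 hW2 (Dv H) (by rw [coe_Dv hfin])
    calc ∑ c ∈ (Dv H).filter (fun c => ¬ rho T (omz (F c).2) < 1),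
          ((SelR c.1 c.2).ncard : ℝ) ^ k
        = ∑ c ∈ (Dv H).filter (fun c => ¬ rho T (omz (F c).2) < 1),
          ((SelR c.1 c.2).ncard : ℝ) ^ k * rho T (omz (F c).2) := by
          refine sum_congr rfl fun c hc => ?_
          rw [mem_filter] at hc
          rw [le_antisymm (rho_le_one _ _) (not_lt.1 hc.2), mul_one]
      _ ≤ ∑ c ∈ Dv H, ((SelR c.1 c.2).ncard : ℝ) ^ k * rho T (omz (F c).2) :=
          sum_le_sum_of_subset_of_nonneg (filter_subset _ _) fun c _ _ =>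
            mul_nonneg (by positivity) (rho_nonneg hT _)
      _ ≤ C * (W : ℝ) ^ 2 := h3
      _ ≤ C * (C4 * (Dv H).card) := mul_le_mul_of_nonneg_left hW3 hC
      _ = _ := by ring

/-- DS-EXC -/
theorem excd_of (h1 : S_REGW) (h2 : S_RBAD) : S_EXCD := by
  classical
  obtain ⟨_, hfind⟩ := Pool.Agent.W307.FK.find
  have hfin : ∀ Z, (DvS 2 Z).Finite := fun Z => (hfind Z).1
  obtain ⟨F, hF1, hF2⟩ := Pool.Agent.W513.FK.parf
  have hF : Par F := ⟨hF1, hF2⟩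
  have hMDL : MDL := Pool.Agent.W554.RS.mdl
  refine ⟨hfin, fun Z => (hfind Z).2.1, ?_⟩
  have key : ∀ k : ℕ, ∃ Z : Set (ℤ × ℤ), (∀ ε : ℝ, 0 < ε → ∃ H0 : ℕ, ∀ H, H0 ≤ H →
      (((Dv H).filter (fun c => c ∈ Z)).card : ℝ) ≤ ε * (Dv H).card) ∧
      ∃ C : ℝ, ∀ H, ∑ c ∈ (Dv H).filter (fun c => c ∉ Z),
      ((SelR c.1 c.2).ncard : ℝ) ^ k ≤ C * (Dv H).card := by
    intro k
    rcases Nat.eq_zero_or_pos k with rfl | hk
    · obtain ⟨E, hE⟩ : ∃ E : Set (ℤ × ℤ), E = ∅ := ⟨_, rfl⟩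
      refine ⟨E, fun ε hε => ⟨0, fun H _ => ?_⟩, 1, fun H => ?_⟩
      · have h0 : ((Dv H).filter (fun c => c ∈ E)).card = 0 := by
          rw [card_eq_zero, filter_eq_empty_iff]
          intro c _ h
          rw [hE] at h
          exact h
        rw [h0, Nat.cast_zero]
        positivity
      · simp only [pow_zero, sum_const, nsmul_eq_mul, mul_one, one_mul]
        refine Nat.cast_le.2 (card_le_card fun c hc => ?_)
        exact (mem_filter.1 hc).1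
    · obtain ⟨T, hT1, hT2, hM⟩ := mafw_of (atw_of ful lnk) cmb expw k hk
      obtain ⟨a1, C, a2⟩ := exc_one' h1 h2 hfin hT1 hT2 (avg k T hT1 hM _ selfg) hF hMDL
        Pool.Agent.W672.FK.lowf (FinP.som8 k)
      refine ⟨{c | rho T (omz (F c).2) < 1}, fun ε hε => ?_, C, fun H => ?_⟩
      · obtain ⟨H0, h3⟩ := a1 ε hε
        refine ⟨H0, fun H hH => ?_⟩
        have := h3 H hH
        convert this using 3
        ext c
        simp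
      · have := a2 H
        convert this using 2
        ext c
        simp
  choose Z hZ using key
  exact diag Dv (Dv_mono hfin) (fun c => ((SelR c.1 c.2).ncard : ℝ)) (fun c => Nat.cast_nonneg _) Z
    (fun k => (hZ k).1) (fun k => (hZ k).2)

end Pool.Agent.TH344.DS
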