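import Pool.Agent.TH344.DS.Stm
import Pool.Agent.TH344.DT.Fin
import Pool.Agent.W32.FK.CovU
import Pool.Agent.W143.FK.Regn

set_option autoImplicit false

/-! DS-REG: the weighted moments over the regions `|a b (a - b)| ≤ W ^ 3` (adapted from
`Pool/Agent/W143/FK/Regn.lean`), and DS-CUS: the points in the cusps (helper986). -/

namespace Pool.Agent.TH344.DS

namespace RegP

open Finset Pool.Agent.W307.RT Pool.Agent.W307.FK Pool.Agent.TH344.DT Pool.Agent.W143.FKRegn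

theorem regw_of (h1 : Pool.Agent.W307.FK.COVU) : S_REGW := by
  intro k T hT h2
  obtain ⟨B, C, hC, h⟩ := h1 (Fin 3) aa bb mm (by decide) (by decide) (by decide)
  obtain ⟨C', hC', h'⟩ := h2 B
  refine ⟨C * C', mul_nonneg hC hC', fun D hD W hW S hS => ?_⟩
  have hA : 0 ≤ C' * (2 * 8 ^ k) ^ D.natAbs.primeFactors.card := by positivity
  have h3 := h (SW k T (fun a b => (Pool.Agent.W307.SE.Sel a b).ncard) D)
    (C' * (2 * 8 ^ k) ^ D.natAbs.primeFactors.card) hA (FinP.SW_nonneg hT k _ D)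
    (fun N1 N2 X hX hN1 hN2 => h' D N1 N2 X hD hX hN1 hN2) W hW S (fun t ht => ?_)
  · rw [mul_assoc C C' _]
    exact h3
  · obtain ⟨k1, k2, k3, k4⟩ := hS t ht
    have e0 : fv aa bb t.1 t.2 0 = t.1 := by simp [fv, aa, bb]
    have e1 : fv aa bb t.1 t.2 1 = t.2 := by simp [fv, aa, bb]
    have e2 : fv aa bb t.1 t.2 2 = t.1 - t.2 := by simp [fv, aa, bb]; ring
    constructor
    · intro j
      fin_cases j
      · exact e0.trans_ne k1
      · exact e1.trans_ne k2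
      · exact e2.trans_ne (sub_ne_zero.2 k3)
    · have hs : ∑ i, mm i = 3 := by decide
      have h0 : mm 0 = 1 := by decide
      have h1' : mm 1 = 1 := by decide
      have h2' : mm 2 = 1 := by decide
      rw [hs, Fin.prod_univ_three, e0, e1, e2, h0, h1', h2', pow_one, pow_one, pow_one,
        ← Int.natAbs_mul, ← Int.natAbs_mul]
      exact k4

/-- the fibres -/
lemma fib (Q n : ℕ) (S : Finset (ℤ × ℤ)) (h : ∀ t ∈ S, t.1 ≠ 0 ∧ t.2.natAbs = n ∧ t.1.natAbs ≤ Q) :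
    S.card ≤ 4 * Q := by
  classical
  have hsub : S ⊆ ((Icc (-(Q : ℤ)) Q).erase 0) ×ˢ ({(n : ℤ), -(n : ℤ)} : Finset ℤ) := by
    intro t ht
    obtain ⟨a1, a2, a3⟩ := h t ht
    rw [mem_product, mem_erase, mem_Icc, mem_insert, mem_singleton]
    refine ⟨⟨a1, by omega, by omega⟩, by omega⟩
  refine (card_le_card hsub).trans ?_
  rw [card_product, card_erase_of_mem (by rw [mem_Icc]; omega), Int.card_Icc]
  have h2 : ({(n : ℤ), -(n : ℤ)} : Finset ℤ).card ≤ 2 := card_le_two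
  have h3 : ((Q : ℤ) + 1 - -(Q : ℤ)).toNat - 1 = 2 * Q := by omega
  rw [h3]
  calc 2 * Q * ({(n : ℤ), -(n : ℤ)} : Finset ℤ).card ≤ 2 * Q * 2 := Nat.mul_le_mul_left _ h2
    _ = 4 * Q := by ring

/-- one cusp -/
lemma cusp1 (W A : ℕ) (hW : 1 ≤ W) (hA : 1 ≤ A) (S : Finset (ℤ × ℤ))
    (h : ∀ t ∈ S, t.1 ≠ 0 ∧ A * W < 2 * t.2.natAbs ∧ t.1.natAbs * t.2.natAbs ^ 2 ≤ 2 * W ^ 3) :
    (S.card : ℝ) ≤ 32 * (W : ℝ) ^ 2 / A := by
  classical
  set k := A * W / 2 with hk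
  set R := 2 * W ^ 3 + 1 with hR
  have hmap : ∀ t ∈ S, t.2.natAbs ∈ Ioo k R := by
    intro t ht
    obtain ⟨a1, a2, a3⟩ := h t ht
    rw [mem_Ioo]
    refine ⟨?_, ?_⟩
    · rw [hk, Nat.div_lt_iff_lt_mul (by norm_num)]
      omega
    · have h1 : 1 ≤ t.1.natAbs := Int.natAbs_pos.2 a1
      have h2 : 1 ≤ t.2.natAbs := by omega
      have h3 : t.2.natAbs ≤ t.1.natAbs * t.2.natAbs ^ 2 := by
        calc t.2.natAbs = 1 * t.2.natAbs ^ 1 := by ring
          _ ≤ t.1.natAbs * t.2.natAbs ^ 2 :=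
            Nat.mul_le_mul h1 (Nat.pow_le_pow_right h2 (by norm_num))
      omega
  rw [card_eq_sum_card_fiberwise (f := fun t : ℤ × ℤ => t.2.natAbs) (t := Ioo k R)
    (fun t ht => hmap t ht)]
  push_cast
  have hW0 : (0 : ℝ) < W := by exact_mod_cast hW
  have hA0 : (0 : ℝ) < A := by exact_mod_cast hA
  calc ∑ n ∈ Ioo k R, (((S.filter fun t : ℤ × ℤ => t.2.natAbs = n).card : ℕ) : ℝ)
      ≤ ∑ n ∈ Ioo k R, 8 * (W : ℝ) ^ 3 * ((n : ℝ) ^ 2)⁻¹ := by
        refine sum_le_sum fun n hn => ?_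
        rw [mem_Ioo] at hn
        have hn0 : 0 < n := by omega
        have h1 := fib (2 * W ^ 3 / n ^ 2) n (S.filter fun t : ℤ × ℤ => t.2.natAbs = n) (by
          intro t ht
          rw [mem_filter] at ht
          obtain ⟨ht1, ht2⟩ := ht
          obtain ⟨a1, a2, a3⟩ := h t ht1
          refine ⟨a1, ht2, ?_⟩
          rw [Nat.le_div_iff_mul_le (by positivity), ← ht2]
          exact a3)
        have h2 : (((2 * W ^ 3 / n ^ 2 : ℕ)) : ℝ) ≤ 2 * (W : ℝ) ^ 3 * ((n : ℝ) ^ 2)⁻¹ := by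
          refine Nat.cast_div_le.trans (le_of_eq ?_)
          push_cast
          rw [div_eq_mul_inv]
        calc (((S.filter fun t : ℤ × ℤ => t.2.natAbs = n).card : ℕ) : ℝ)
            ≤ ((4 * (2 * W ^ 3 / n ^ 2) : ℕ) : ℝ) := by exact_mod_cast h1
          _ = 4 * (((2 * W ^ 3 / n ^ 2 : ℕ)) : ℝ) := by push_cast; ring
          _ ≤ 4 * (2 * (W : ℝ) ^ 3 * ((n : ℝ) ^ 2)⁻¹) := by linarith
          _ = 8 * (W : ℝ) ^ 3 * ((n : ℝ) ^ 2)⁻¹ := by ring
    _ = 8 * (W : ℝ) ^ 3 * ∑ n ∈ Ioo k R, ((n : ℝ) ^ 2)⁻¹ := by rw [mul_sum]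
    _ ≤ 8 * (W : ℝ) ^ 3 * (2 / ((k : ℝ) + 1)) :=
        mul_le_mul_of_nonneg_left (sum_Ioo_inv_sq_le k R) (by positivity)
    _ ≤ 8 * (W : ℝ) ^ 3 * (4 / ((A : ℝ) * W)) := by
        refine mul_le_mul_of_nonneg_left ?_ (by positivity)
        have h5 : A * W < 2 * (k + 1) := by omega
        have h6 : (A : ℝ) * W < 2 * ((k : ℝ) + 1) := by exact_mod_cast h5
        rw [div_le_div_iff₀ (by positivity) (by positivity)]
        linarith
    _ = 32 * (W : ℝ) ^ 2 / A := by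
        field_simp
        ring

theorem cusp : S_CUSP := by
  classical
  refine ⟨96, by norm_num, fun W A hW hA S hS => ?_⟩
  -- the three kinds of cusps
  set S0 := S.filter fun t : ℤ × ℤ => t.1.natAbs ≤ t.2.natAbs ∧ t.1.natAbs ≤ (t.1 - t.2).natAbs
    with hS0
  set S1 := S.filter fun t : ℤ × ℤ => t.2.natAbs ≤ t.1.natAbs ∧ t.2.natAbs ≤ (t.1 - t.2).natAbs
    with hS1
  set S2 := S.filter fun t : ℤ × ℤ => (t.1 - t.2).natAbs ≤ t.1.natAbs ∧
    (t.1 - t.2).natAbs ≤ t.2.natAbs with hS2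
  have hcov : S ⊆ S0 ∪ (S1 ∪ S2) := by
    intro t ht
    rw [mem_union, mem_union, hS0, hS1, hS2, mem_filter, mem_filter, mem_filter]
    rcases le_total t.1.natAbs t.2.natAbs with h1 | h1
    · rcases le_total t.1.natAbs (t.1 - t.2).natAbs with h2 | h2
      · exact Or.inl ⟨ht, h1, h2⟩
      · exact Or.inr (Or.inr ⟨ht, h2, h2.trans h1⟩)
    · rcases le_total t.2.natAbs (t.1 - t.2).natAbs with h2 | h2
      · exact Or.inr (Or.inl ⟨ht, h1, h2⟩)
      · exact Or.inr (Or.inr ⟨ht, h2.trans h1, h2⟩)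
  -- the key inequality
  have key : ∀ s t : ℤ, s.natAbs ≤ t.natAbs → s.natAbs ≤ (s - t).natAbs →
      (s * t * (s - t)).natAbs ≤ W ^ 3 → s.natAbs * t.natAbs ^ 2 ≤ 2 * W ^ 3 := by
    intro s t _ h2 h3
    have h4 : t.natAbs ≤ 2 * (s - t).natAbs := by omega
    rw [Int.natAbs_mul, Int.natAbs_mul] at h3
    calc s.natAbs * t.natAbs ^ 2 = s.natAbs * t.natAbs * t.natAbs := by ring
      _ ≤ s.natAbs * t.natAbs * (2 * (s - t).natAbs) := Nat.mul_le_mul_left _ h4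
      _ = 2 * (s.natAbs * t.natAbs * (s - t).natAbs) := by ring
      _ ≤ 2 * W ^ 3 := Nat.mul_le_mul_left _ h3
  have b0 : (S0.card : ℝ) ≤ 32 * (W : ℝ) ^ 2 / A := by
    refine cusp1 W A hW hA S0 fun t ht => ?_
    rw [hS0, mem_filter] at ht
    obtain ⟨ht, h1, h2⟩ := ht
    obtain ⟨a1, a2, a3, a4, a5⟩ := hS t ht
    refine ⟨a1, ?_, key _ _ h1 h2 a4⟩
    rw [max_eq_right h1] at a5
    omega
  have b1 : (S1.card : ℝ) ≤ 32 * (W : ℝ) ^ 2 / A := by
    have hinj : Set.InjOn (fun t : ℤ × ℤ => (t.2, t.1)) S1 := by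
      rintro ⟨a, b⟩ _ ⟨c, d⟩ _ h
      simp only [Prod.mk.injEq] at h ⊢
      exact ⟨h.2, h.1⟩
    rw [← card_image_of_injOn hinj]
    refine cusp1 W A hW hA _ fun t ht => ?_
    obtain ⟨u, hu, rfl⟩ := mem_image.1 ht
    rw [hS1, mem_filter] at hu
    obtain ⟨hu, h1, h2⟩ := hu
    obtain ⟨a1, a2, a3, a4, a5⟩ := hS u hu
    refine ⟨a2, ?_, key _ _ h1 (by simp only; omega) ?_⟩
    · rw [max_eq_left h1] at a5
      simp only
      omega
    · have : (u.2 * u.1 * (u.2 - u.1)).natAbs = (u.1 * u.2 * (u.1 - u.2)).natAbs := by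
        rw [← Int.natAbs_neg]
        congr 1
        ring
      simp only
      rw [this]
      exact a4
  have b2 : (S2.card : ℝ) ≤ 32 * (W : ℝ) ^ 2 / A := by
    have hinj : Set.InjOn (fun t : ℤ × ℤ => (t.2 - t.1, t.2)) S2 := by
      rintro ⟨a, b⟩ _ ⟨c, d⟩ _ h
      simp only [Prod.mk.injEq] at h ⊢
      omega
    rw [← card_image_of_injOn hinj]
    refine cusp1 W A hW hA _ fun t ht => ?_
    obtain ⟨u, hu, rfl⟩ := mem_image.1 ht
    rw [hS2, mem_filter] at hu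
    obtain ⟨hu, h1, h2⟩ := hu
    obtain ⟨a1, a2, a3, a4, a5⟩ := hS u hu
    refine ⟨by simp only; omega, ?_, key _ _ (by simp only; omega) (by simp only; omega) ?_⟩
    · simp only
      rw [lt_max_iff] at a5
      omega
    · have : ((u.2 - u.1) * u.2 * (u.2 - u.1 - u.2)).natAbs = (u.1 * u.2 * (u.1 - u.2)).natAbs := by
        congr 1
        ring
      simp only
      rw [this]
      exact a4
  have hc : S.card ≤ S0.card + (S1.card + S2.card) :=
    (card_le_card hcov).trans ((card_union_le _ _).trans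
      (Nat.add_le_add_left (card_union_le _ _) _))
  have hc' : (S.card : ℝ) ≤ S0.card + (S1.card + S2.card) := by exact_mod_cast hc
  calc (S.card : ℝ) ≤ S0.card + (S1.card + S2.card) := hc'
    _ ≤ 32 * (W : ℝ) ^ 2 / A + (32 * (W : ℝ) ^ 2 / A + 32 * (W : ℝ) ^ 2 / A) := by linarith
    _ = 96 * (W : ℝ) ^ 2 / A := by ring

end RegP

theorem regw : S_REGW := RegP.regw_of Pool.Agent.W32.FK.covu

theorem cusp : S_CUSP := RegP.cusp

end Pool.Agent.TH344.DS
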