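import Mathlib
import Pool.Agent.TH344.DS.Reg
import Pool.Agent.TH344.DS.Bad
import Pool.Agent.TH344.DS.Exc

/-! Project DS: the main theorem. -/

set_option autoImplicit false

namespace Pool.Agent.TH344.DS

/-- **one exceptional set of density zero for all the moments, by discriminant** -/
theorem excd : S_EXCD := excd_of regw (rbad_of cusp)

end Pool.Agent.TH344.DS
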